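import Pool.Agent.W425.BF.Stm

/-!
# Geometry of the regions
-/

set_option autoImplicit false

namespace Pool.Agent.W303.BF

open Pool.Agent.W425.BF
open Pool.Agent.W426.SM (gord face IsRay)

variable {n k : ℕ}

/-- the value of the monomial `j` -/
def SS (m : Fin k → Fin n → ℕ) (u : Fin n → ℕ) (j : Fin k) : ℤ := ∑ x, (u x : ℤ) * (m j x : ℤ)

theorem SS_cast (m : Fin k → Fin n → ℕ) (u : Fin n → ℕ) (j : Fin k) :
    ((∑ x, u x * m j x : ℕ) : ℤ) = SS m u j := by
  unfold SS
  push_cast
  rfl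

theorem sum_off (i : Fin n) (f g : Fin n → ℤ) :
    ∑ x, (if x = i then 0 else f x) * g x = ∑ x, f x * g x - f i * g i := by
  classical
  have h : ∀ x, (if x = i then 0 else f x) * g x =
      f x * g x - if x = i then f x * g x else 0 := by
    intro x
    by_cases hx : x = i
    · rw [if_pos hx, if_pos hx]
      ring
    · rw [if_neg hx, if_neg hx]
      ring
  rw [Finset.sum_congr rfl (fun x _ => h x), Finset.sum_sub_distrib, Finset.sum_ite_eq',
    if_pos (Finset.mem_univ i)]

theorem sum_diff (m : Fin k → Fin n → ℕ) (u : Fin n → ℕ) (j l : Fin k) :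
    ∑ x, ((m j x : ℤ) - m l x) * (u x : ℤ) = SS m u j - SS m u l := by
  unfold SS
  rw [← Finset.sum_sub_distrib]
  exact Finset.sum_congr rfl (fun x _ => by ring)

theorem L1 (m : Fin k → Fin n → ℕ) (i : Fin n) (j0 j : Fin k) (h : j ≠ j0 ∧ 1 ≤ m j i)
    (u : Fin n → ℕ) :
    ∑ x, cf m i j0 (Sum.inl j) x * (u x : ℤ) = SS m u j - SS m u j0 := by
  have h1 : cf m i j0 (Sum.inl j) = fun x => (m j x : ℤ) - m j0 x := by
    funext x
    unfold cf
    exact if_pos h
  rw [h1]
  exact sum_diff m u j j0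

theorem L3 (m : Fin k → Fin n → ℕ) (i : Fin n) (j0 l : Fin k) (h0 : m j0 i = 1)
    (h : m l i = 0) (u : Fin n → ℕ) :
    ∑ x, cf m i j0 (Sum.inr (Sum.inr l)) x * (u x : ℤ) = SS m u l - SS m u j0 + u i := by
  have h1 : cf m i j0 (Sum.inr (Sum.inr l)) =
      fun x => if x = i then 0 else (m l x : ℤ) - m j0 x := by
    funext x
    unfold cf
    dsimp only
    rw [if_pos h]
  rw [h1, sum_off, sum_diff, h0, h]
  push_cast
  ring

theorem L2 (m : Fin k → Fin n → ℕ) (i : Fin n) (j0 j l : Fin k) (h0 : m j0 i = 1)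
    (h : j ≠ j0 ∧ 1 ≤ m j i ∧ m l i = 0) (u : Fin n → ℕ) :
    ∑ x, cf m i j0 (Sum.inr (Sum.inl (j, l))) x * (u x : ℤ) =
      ((m j i : ℤ) - 1) * (SS m u l - SS m u j0) + (SS m u j - SS m u j0) := by
  have h1 : cf m i j0 (Sum.inr (Sum.inl (j, l))) =
      fun x => if x = i then 0 else
        ((m j i : ℤ) - 1) * ((m l x : ℤ) - m j0 x) + ((m j x : ℤ) - m j0 x) := by
    funext x
    unfold cf
    dsimp only
    rw [if_pos h]
  have h2 : ∑ x, (((m j i : ℤ) - 1) * ((m l x : ℤ) - m j0 x) + ((m j x : ℤ) - m j0 x)) *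
      (u x : ℤ) = ((m j i : ℤ) - 1) * (SS m u l - SS m u j0) + (SS m u j - SS m u j0) := by
    rw [← sum_diff, ← sum_diff, Finset.mul_sum, ← Finset.sum_add_distrib]
    exact Finset.sum_congr rfl (fun x _ => by ring)
  rw [h1, sum_off, h2, h0, h.2.2]
  push_cast
  ring

theorem pos_aux (m : Fin k → Fin n → ℕ) (i : Fin n) (a : Fin n → ℕ) (j0 : Fin k)
    (ha : a i ≠ 0) (hf : face m a j0) (h1 : m j0 i = 1)
    (hu : ∀ j, face m a j → j ≠ j0 → m j i = 0) (q : Ix k) :
    (cf m i j0 q = 0 ∧ cd m i j0 q = 0) ∨ 0 < ∑ x, cf m i j0 q x * (a x : ℤ) := by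
  have hle : ∀ j, SS m a j0 ≤ SS m a j := by
    intro j
    have h2 := Pool.Agent.W803.SM.gord_le m a j
    rw [← hf] at h2
    rw [← SS_cast, ← SS_cast]
    exact_mod_cast h2
  have hlt : ∀ j, j ≠ j0 → 1 ≤ m j i → SS m a j0 < SS m a j := by
    intro j hj hm
    refine lt_of_le_of_ne (hle j) (fun h => ?_)
    rw [← SS_cast, ← SS_cast] at h
    have h3 : ∑ x, a x * m j0 x = ∑ x, a x * m j x := by exact_mod_cast h
    have h4 : face m a j := by
      unfold face at hf ⊢
      rw [← h3]
      exact hf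
    have := hu j h4 hj
    omega
  have hai : (0 : ℤ) < a i := by
    have := Nat.pos_of_ne_zero ha
    exact_mod_cast this
  rcases q with j | ⟨j, l⟩ | l
  · by_cases h : j ≠ j0 ∧ 1 ≤ m j i
    · right
      rw [L1 m i j0 j h]
      have := hlt j h.1 h.2
      linarith
    · left
      constructor
      · funext x
        unfold cf
        exact if_neg h
      · unfold cd
        exact if_neg h
  · by_cases h : j ≠ j0 ∧ 1 ≤ m j i ∧ m l i = 0
    · right
      rw [L2 m i j0 j l h1 h]
      have h2 := hlt j h.1 h.2.1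
      have h3 := hle l
      have h4 : (0 : ℤ) ≤ (m j i : ℤ) - 1 := by
        have := h.2.1
        have h5 : (1 : ℤ) ≤ (m j i : ℤ) := by exact_mod_cast this
        linarith
      have h5 := mul_nonneg h4 (sub_nonneg.2 h3)
      linarith
    · left
      constructor
      · funext x
        unfold cf
        exact if_neg h
      · unfold cd
        exact if_neg h
  · by_cases h : m l i = 0
    · right
      rw [L3 m i j0 l h1 h]
      have h3 := hle l
      linarith
    · left
      constructor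
      · funext x
        unfold cf
        exact if_neg h
      · rfl

theorem disj : TaskDISJ := by
  intro n k m i j0 j1 h0 h1 hne
  rw [Set.disjoint_left]
  intro u hu0 hu1
  have e0 := hu0 (Sum.inl j1)
  have e1 := hu1 (Sum.inl j0)
  rw [L1 m i j0 j1 ⟨hne.symm, h1.ge⟩] at e0
  rw [L1 m i j1 j0 ⟨hne, h0.ge⟩] at e1
  have c0 : cd m i j0 (Sum.inl j1) = 1 := by
    unfold cd
    exact if_pos ⟨hne.symm, h1.ge⟩
  have c1 : cd m i j1 (Sum.inl j0) = 1 := by
    unfold cd
    exact if_pos ⟨hne, h0.ge⟩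
  rw [c0] at e0
  rw [c1] at e1
  linarith

theorem pos : TaskPOS := by
  intro n k m i a h
  obtain ⟨ha, j0, hf, h1, hu⟩ := h
  exact ⟨j0, h1, hf, pos_aux m i a j0 ha hf h1 hu⟩

theorem npa : TaskNPA := by
  intro n k m i j0 h0 ρ hρ a hrem hpar
  classical
  obtain ⟨⟨ha, j1, hf, h1, hu⟩, x0, hx0, hax0⟩ := hrem
  obtain ⟨M, N, hM, hN, hMN⟩ := hpar
  obtain ⟨-, hnn, hext⟩ := hρ
  have hMZ : (0 : ℤ) < M := by exact_mod_cast hM
  have hNZ : (0 : ℤ) < N := by exact_mod_cast hN
  have hsc : ∀ x, (M : ℤ) * a x = N * ρ x := fun x => by exact_mod_cast hMN x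
  have hρx : ∀ x, a x ≠ 0 → ρ x ≠ 0 := by
    intro x hx h
    have h2 := hMN x
    rw [h, mul_zero] at h2
    rcases Nat.mul_eq_zero.1 h2 with h3 | h3
    · omega
    · exact hx h3
  by_cases hj : j1 = j0
  · subst hj
    have hq := pos_aux m i a j1 ha hf h1 hu
    obtain ⟨r, hr⟩ := hext (Pi.single i 1) (by
      intro x hx
      by_cases hxi : x = i
      · subst hxi
        exact absurd hx (hρx _ ha)
      · exact Pi.single_eq_of_ne hxi _) (by
      intro q hq0
      rcases hq q with h | h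
      · rw [h.1]
        simp
      · exfalso
        have h2 : (M : ℤ) * ∑ x, cf m i j1 q x * (a x : ℤ) =
            N * ∑ x, cf m i j1 q x * (ρ x : ℤ) := by
          rw [Finset.mul_sum, Finset.mul_sum]
          refine Finset.sum_congr rfl (fun x _ => ?_)
          have := hsc x
          linear_combination (cf m i j1 q x) * this
        rw [hq0, mul_zero] at h2
        have h3 := mul_pos hMZ h
        linarith)
    have h2 := hr i
    have h3 := hr x0
    rw [Pi.single_eq_same] at h2
    rw [Pi.single_eq_of_ne hx0] at h3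
    have h4 : (ρ x0 : ℚ) ≠ 0 := by exact_mod_cast hρx x0 hax0
    have h5 : r = 0 := by
      rcases mul_eq_zero.1 h3.symm with h | h
      · exact h
      · exact absurd h h4
    rw [h5, zero_mul] at h2
    exact one_ne_zero h2
  · have h2 := hnn (Sum.inl j1)
    rw [L1 m i j0 j1 ⟨hj, h1.ge⟩] at h2
    have h3 : ∀ j, (M : ℤ) * SS m a j = N * SS m ρ j := by
      intro j
      unfold SS
      rw [Finset.mul_sum, Finset.mul_sum]
      refine Finset.sum_congr rfl (fun x _ => ?_)
      have := hsc x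
      linear_combination (m j x : ℤ) * this
    have h4 : SS m a j0 ≤ SS m a j1 := by
      have h5 : (M : ℤ) * SS m a j0 ≤ M * SS m a j1 := by
        rw [h3, h3]
        exact mul_le_mul_of_nonneg_left (by linarith) hNZ.le
      exact le_of_mul_le_mul_left h5 hMZ
    have h5 : face m a j0 := by
      unfold face at hf ⊢
      refine le_antisymm ?_ (Pool.Agent.W803.SM.gord_le m a j0)
      rw [← hf]
      rw [← SS_cast, ← SS_cast] at h4
      exact_mod_cast h4
    have h6 := hu j0 h5 (fun h => hj h.symm)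
    omega

end Pool.Agent.W303.BF
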